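import Mathlib
import Pool.Agent.Q299.MUlt

set_option autoImplicit false

namespace Pool.Agent.Results.MP_31068f_lc.FeNotMDivInL

open Pool.Agent.Q299.MUlt

/-- The set `L` of all ultrafilters containing some level `Lₙ`, the set of numbers with exactly `n`
prime factors counted with multiplicity. -/
def LL : Set (Ultrafilter ℕ+) :=
  {F | ∃ n : ℕ, {m : ℕ+ | ArithmeticFunction.cardFactors (m : ℕ) = n} ∈ F}

/-- There are `F, G ∈ L` with `F ≤_fe G` but not `F ∣_M G`. -/
theorem result : ∃ F ∈ LL, ∃ G ∈ LL, fe F G ∧ ¬ mdvd F G := by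
  refine ⟨G, ⟨1, G_lev⟩, FF, ⟨2, FF_lev⟩, fe_G_FF, fun h => ?_⟩
  rcases FF_minimal G h with h1 | h1
  · exact G_ne_one h1
  · exact G_ne_FF h1

end Pool.Agent.Results.MP_31068f_lc.FeNotMDivInL
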